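import Pool.Agent.Helper91K1.PQ.Stm3

/-! Piece RNG (helper27) of project PQ of helper91. -/

set_option autoImplicit false

open MeasureTheory Filter Topology Finset

namespace Pool.Agent.Helper27.PQ

open Pool.Agent.Helper91K1.PQ

open Classical in
theorem fibre (β R : ℝ) (hβ : 0 < β) (hR : 0 < R) (X : ℕ) (a : ℝ) :
    ((Ioc X (2 * X)).filter (fun N : ℕ => |a - β * (N : ℝ) ^ 2| ≤ R * N)).card ≤ ⌊R / β⌋₊ + 1 := by
  by_cases hne : ((Ioc X (2 * X)).filter (fun N : ℕ => |a - β * (N : ℝ) ^ 2| ≤ R * N)).Nonempty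
  swap
  · rw [Finset.not_nonempty_iff_eq_empty.mp hne]
    simp
  obtain ⟨n0, hn0, hmin⟩ := Finset.exists_min_image _ (fun n : ℕ => n) hne
  have hsub : ((Ioc X (2 * X)).filter (fun N : ℕ => |a - β * (N : ℝ) ^ 2| ≤ R * N)) ⊆
      Icc n0 (n0 + ⌊R / β⌋₊) := by
    intro N hN
    have h1 := hmin N hN
    rw [Finset.mem_filter, Finset.mem_Ioc] at hN hn0
    rw [Finset.mem_Icc]
    refine ⟨h1, ?_⟩
    have hNpos : (0 : ℝ) < N := by
      have : 0 < N := lt_of_le_of_lt (Nat.zero_le _) hN.1.1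
      exact_mod_cast this
    have h2 := abs_le.mp hN.2
    have h3 := abs_le.mp hn0.2
    have h1' : (n0 : ℝ) ≤ N := by exact_mod_cast h1
    have h0' : (0 : ℝ) ≤ n0 := Nat.cast_nonneg _
    have h4 : β * ((N : ℝ) - n0) * (N + n0) ≤ R * (N + n0) := by nlinarith [h2.1, h3.2]
    have h5 : β * ((N : ℝ) - n0) ≤ R := le_of_mul_le_mul_right h4 (by linarith)
    have h6 : (N : ℝ) - n0 ≤ R / β := by
      rw [le_div_iff₀ hβ]; linarith
    have h7 : N - n0 ≤ ⌊R / β⌋₊ := by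
      apply Nat.le_floor
      rw [Nat.cast_sub h1]
      exact h6
    omega
  refine (Finset.card_le_card hsub).trans ?_
  rw [Nat.card_Icc]
  omega

theorem t_RNG : S_RNG := by
  classical
  intro c κ hκ hκ1 hEX β R hβ hR
  have h1 := hEX (β / 2) (4 * β + 1) (by linarith) (by linarith)
  have hLt : ∀ᶠ X : ℕ in atTop, (⌊R / β⌋₊ + 1 : ℝ) ≤ (X : ℝ) ^ (1 / 20 : ℝ) := by
    have : Tendsto (fun X : ℕ => (X : ℝ) ^ (1 / 20 : ℝ)) atTop atTop :=
      (tendsto_rpow_atTop (by norm_num)).comp tendsto_natCast_atTop_atTop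
    exact this.eventually_ge_atTop _
  have hX1 : ∀ᶠ X : ℕ in atTop, 2 * R / β + 2 * R + 1 ≤ (X : ℝ) :=
    tendsto_natCast_atTop_atTop.eventually_ge_atTop _
  filter_upwards [h1, hLt, hX1, eventually_ge_atTop 1] with X hX hXD hXR hX1'
  have hXpos : (1 : ℝ) ≤ X := by exact_mod_cast hX1'
  have hL1 : 1 ≤ Lb κ X := by
    apply Nat.le_floor
    rw [Nat.cast_one]
    exact Real.one_le_rpow hXpos (by linarith)
  have hLX : (Lb κ X : ℝ) ≤ X := by
    refine (Nat.floor_le (by positivity)).trans ?_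
    calc (X : ℝ) ^ (1 - κ) ≤ (X : ℝ) ^ (1 : ℝ) := Real.rpow_le_rpow_of_exponent_le hXpos (by linarith)
      _ = X := Real.rpow_one _
  obtain ⟨P, hP⟩ : ∃ P : Set ℕ, P = {k : ℕ | β / 2 * (X : ℝ) ^ 2 ≤ k * Lb κ X ∧
      ((k : ℝ) + 1) * Lb κ X ≤ (4 * β + 1) * (X : ℝ) ^ 2 ∧
      (pb (k * Lb κ X) (Lb κ X) : ℝ) < c * Lb κ X / Real.log (Lb κ X)} := ⟨_, rfl⟩
  rw [← hP] at hX
  have hPfin : P.Finite := by
    apply (Set.finite_Iic ⌊(4 * β + 1) * (X : ℝ) ^ 2⌋₊).subset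
    intro k hk
    rw [hP] at hk
    rw [Set.mem_Iic]
    apply Nat.le_floor
    have hL1' : (1 : ℝ) ≤ Lb κ X := by exact_mod_cast hL1
    have hk0 : (0 : ℝ) ≤ k := Nat.cast_nonneg _
    nlinarith [hk.2.1]
  have hRβ : 2 * R ≤ β * X := by
    have h2 : 2 * R / β ≤ X := by linarith
    rw [div_le_iff₀ hβ] at h2
    linarith
  have hX2R : 2 * R + 1 ≤ X := by
    have : 0 ≤ 2 * R / β := by positivity
    linarith
  have hsub : {N : ℕ | X < N ∧ N ≤ 2 * X ∧ ∃ k : ℕ, |(k : ℝ) * Lb κ X - β * (N : ℝ) ^ 2| ≤ R * N ∧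
      (pb (k * Lb κ X) (Lb κ X) : ℝ) < c * Lb κ X / Real.log (Lb κ X)} ⊆
      ((hPfin.toFinset.biUnion (fun k => (Ioc X (2 * X)).filter
        (fun N : ℕ => |(k : ℝ) * Lb κ X - β * (N : ℝ) ^ 2| ≤ R * N)) : Finset ℕ) : Set ℕ) := by
    rintro N ⟨hN1, hN2, k, hk1, hk2⟩
    rw [Finset.mem_coe, Finset.mem_biUnion]
    refine ⟨k, ?_, ?_⟩
    · rw [Set.Finite.mem_toFinset, hP]
      have hN1' : (X : ℝ) < N := by exact_mod_cast hN1
      have hN2' : (N : ℝ) ≤ 2 * X := by exact_mod_cast hN2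
      have h3 := abs_le.mp hk1
      refine ⟨?_, ?_, hk2⟩
      · have h4 : β * X ≤ β * N := mul_le_mul_of_nonneg_left hN1'.le hβ.le
        have h5 : β * X / 2 ≤ β * N - R := by linarith
        have h6 : (X : ℝ) * (β * X / 2) ≤ N * (β * N - R) :=
          mul_le_mul hN1'.le h5 (by positivity) (by linarith)
        have h7 : (N : ℝ) * (β * N - R) = β * (N : ℝ) ^ 2 - R * N := by ring
        have h9 : (X : ℝ) * (β * X / 2) = β / 2 * (X : ℝ) ^ 2 := by ring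
        rw [h7, h9] at h6
        linarith [h3.1]
      · have h4 : (N : ℝ) ^ 2 ≤ (2 * (X : ℝ)) ^ 2 := pow_le_pow_left₀ (by linarith) hN2' 2
        have h5 : β * (N : ℝ) ^ 2 ≤ β * (2 * (X : ℝ)) ^ 2 := mul_le_mul_of_nonneg_left h4 hβ.le
        have h6 : R * (N : ℝ) ≤ R * (2 * X) := mul_le_mul_of_nonneg_left hN2' hR.le
        have h7 : (2 * R + 1) * (X : ℝ) ≤ X * X := mul_le_mul_of_nonneg_right hX2R (by linarith)
        have h9 : ((k : ℝ) + 1) * Lb κ X = k * Lb κ X + Lb κ X := by ring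
        rw [h9]
        have h10 : β * (2 * (X : ℝ)) ^ 2 = 4 * β * (X : ℝ) ^ 2 := by ring
        have h11 : (4 * β + 1) * (X : ℝ) ^ 2 = 4 * β * (X : ℝ) ^ 2 + X * X := by ring
        rw [h11]
        linarith [h3.2]
    · rw [Finset.mem_filter, Finset.mem_Ioc]
      exact ⟨⟨hN1, hN2⟩, hk1⟩
  have hcard : {N : ℕ | X < N ∧ N ≤ 2 * X ∧ ∃ k : ℕ, |(k : ℝ) * Lb κ X - β * (N : ℝ) ^ 2| ≤ R * N ∧
      (pb (k * Lb κ X) (Lb κ X) : ℝ) < c * Lb κ X / Real.log (Lb κ X)}.ncard ≤ P.ncard * (⌊R / β⌋₊ + 1) := by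
    refine (Set.ncard_le_ncard hsub (Finset.finite_toSet _)).trans ?_
    rw [Set.ncard_coe_finset, Set.ncard_eq_toFinset_card P hPfin]
    apply Finset.card_biUnion_le_card_mul
    intro k _
    exact fibre β R hβ hR X _
  have h8 : ((P.ncard * (⌊R / β⌋₊ + 1) : ℕ) : ℝ) ≤ (X : ℝ) ^ (4 / 5 : ℝ) := by
    push_cast
    calc (P.ncard : ℝ) * (⌊R / β⌋₊ + 1) ≤ (X : ℝ) ^ (3 / 4 : ℝ) * (X : ℝ) ^ (1 / 20 : ℝ) := by
          apply mul_le_mul hX hXD (by positivity) (by positivity)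
      _ = (X : ℝ) ^ (4 / 5 : ℝ) := by
          rw [← Real.rpow_add (by linarith)]
          norm_num
  refine le_trans ?_ h8
  exact_mod_cast hcard

end Pool.Agent.Helper27.PQ
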